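import Pool.Agent.helper73.SHL.Spec

set_option autoImplicit false

namespace Pool.Agent.SHL

open Matrix Module Pool.Agent.PR

section

variable {n : ℕ} {Λ : Type} [Group Λ] {F F' : Type} [Field F] [CharZero F] [Field F'] [CharZero F']
  (ρ : Λ →* Matrix (Fin n) (Fin n) F) (σ : Λ →* Matrix (Fin n) (Fin n) F') (t : Λ → ℚ)

theorem CHM_trace (hρ : ∀ l, (ρ l).trace = (t l : F)) (hσ : ∀ l, (σ l).trace = (t l : F'))
    (a : MonoidAlgebra ℚ Λ) : ∃ r : ℚ,
      (MonoidAlgebra.lift ℚ (Matrix (Fin n) (Fin n) F) Λ ρ a).trace = (r : F) ∧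
      (MonoidAlgebra.lift ℚ (Matrix (Fin n) (Fin n) F') Λ σ a).trace = (r : F') := by
  induction a using MonoidAlgebra.induction_on with
  | of g => exact ⟨t g, by rw [MonoidAlgebra.lift_of, hρ], by rw [MonoidAlgebra.lift_of, hσ]⟩
  | add x y hx hy =>
    obtain ⟨r, h1, h2⟩ := hx
    obtain ⟨s, h3, h4⟩ := hy
    refine ⟨r + s, ?_, ?_⟩
    · rw [map_add, Matrix.trace_add, h1, h3]; push_cast; rfl
    · rw [map_add, Matrix.trace_add, h2, h4]; push_cast; rfl
  | smul c x hx =>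
    obtain ⟨r, h1, h2⟩ := hx
    refine ⟨c * r, ?_, ?_⟩
    · rw [map_smul, Matrix.trace_smul, h1, Rat.smul_def]; push_cast; rfl
    · rw [map_smul, Matrix.trace_smul, h2, Rat.smul_def]; push_cast; rfl

theorem CHM_ker (hρ : ∀ l, (ρ l).trace = (t l : F)) (hσ : ∀ l, (σ l).trace = (t l : F'))
    (hspan : Submodule.span F' (Set.range σ) = ⊤) (a : MonoidAlgebra ℚ Λ)
    (ha : MonoidAlgebra.lift ℚ (Matrix (Fin n) (Fin n) F) Λ ρ a = 0) :
    MonoidAlgebra.lift ℚ (Matrix (Fin n) (Fin n) F') Λ σ a = 0 := by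
  set Y := MonoidAlgebra.lift ℚ (Matrix (Fin n) (Fin n) F') Λ σ a with hY
  have h1 : ∀ μ : Λ, (Y * σ μ).trace = 0 := by
    intro μ
    obtain ⟨r, h2, h3⟩ := CHM_trace ρ σ t hρ hσ (a * MonoidAlgebra.of ℚ Λ μ)
    rw [map_mul, ha, zero_mul, Matrix.trace_zero] at h2
    have hr : r = 0 := by exact_mod_cast h2.symm
    rw [map_mul, MonoidAlgebra.lift_of, hr] at h3
    rw [hY, h3]
    simp
  have h2 : ∀ B ∈ Submodule.span F' (Set.range σ), (Y * B).trace = 0 := by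
    intro B hB
    induction hB using Submodule.span_induction with
    | mem x hx =>
      obtain ⟨μ, rfl⟩ := hx
      exact h1 μ
    | zero => simp
    | add x y _ _ hx hy => rw [mul_add, Matrix.trace_add, hx, hy, add_zero]
    | smul c x _ hx => rw [mul_smul_comm, Matrix.trace_smul, hx, smul_zero]
  refine Matrix.ext_iff_trace_mul_right.mpr fun B => ?_
  rw [zero_mul, Matrix.trace_zero]
  exact h2 B (by rw [hspan]; exact Submodule.mem_top)

theorem CHM_hom (hρ : ∀ l, (ρ l).trace = (t l : F)) (hσ : ∀ l, (σ l).trace = (t l : F'))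
    (hspan : Submodule.span F' (Set.range σ) = ⊤) :
    ∃ ψ : Algebra.adjoin ℚ (Set.range ρ) →ₐ[ℚ] Matrix (Fin n) (Fin n) F',
      (∀ l, ψ ⟨ρ l, Algebra.subset_adjoin ⟨l, rfl⟩⟩ = σ l) ∧
      ∀ x : Algebra.adjoin ℚ (Set.range ρ), ∃ r : ℚ,
        (x : Matrix (Fin n) (Fin n) F).trace = (r : F) ∧ (ψ x).trace = (r : F') := by
  let P := MonoidAlgebra.lift ℚ (Matrix (Fin n) (Fin n) F) Λ ρ
  let S := MonoidAlgebra.lift ℚ (Matrix (Fin n) (Fin n) F') Λ σ
  have hpre : ∀ x : Algebra.adjoin ℚ (Set.range ρ), ∃ a : MonoidAlgebra ℚ Λ, P a = x := by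
    intro x
    have h1 : Algebra.adjoin ℚ (Set.range ρ) ≤ P.range := by
      refine Algebra.adjoin_le ?_
      rintro _ ⟨l, rfl⟩
      exact ⟨MonoidAlgebra.of ℚ Λ l, MonoidAlgebra.lift_of ρ l⟩
    exact h1 x.2
  choose pre hpre using hpre
  have key : ∀ a b : MonoidAlgebra ℚ Λ, P a = P b → S a = S b := by
    intro a b hab
    have h1 : P (a - b) = 0 := by rw [map_sub, hab, sub_self]
    have h2 := CHM_ker ρ σ t hρ hσ hspan (a - b) h1
    have h3 : S (a - b) = 0 := h2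
    rw [map_sub, sub_eq_zero] at h3
    exact h3
  let ψ : Algebra.adjoin ℚ (Set.range ρ) →ₐ[ℚ] Matrix (Fin n) (Fin n) F' :=
    { toFun := fun x => S (pre x)
      map_one' := by
        rw [← map_one S]
        exact key _ _ (by rw [hpre, map_one]; rfl)
      map_mul' := fun x y => by
        rw [← map_mul S]
        exact key _ _ (by rw [hpre, map_mul, hpre, hpre]; rfl)
      map_zero' := by
        rw [← map_zero S]
        exact key _ _ (by rw [hpre, map_zero]; rfl)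
      map_add' := fun x y => by
        rw [← map_add S]
        exact key _ _ (by rw [hpre, map_add, hpre, hpre]; rfl)
      commutes' := fun q => by
        rw [← AlgHom.commutes S q]
        exact key _ _ (by rw [hpre, AlgHom.commutes P]; rfl) }
  refine ⟨ψ, fun l => ?_, fun x => ?_⟩
  · have h1 : S (pre ⟨ρ l, Algebra.subset_adjoin ⟨l, rfl⟩⟩) = S (MonoidAlgebra.of ℚ Λ l) :=
      key _ _ (by rw [hpre]; exact (MonoidAlgebra.lift_of ρ l).symm)
    exact h1.trans (MonoidAlgebra.lift_of σ l)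
  · obtain ⟨r, h1, h2⟩ := CHM_trace ρ σ t hρ hσ (pre x)
    refine ⟨r, ?_, h2⟩
    rw [← h1]
    exact congrArg Matrix.trace (hpre x).symm

end

/-- the homomorphism to matrices over the field -/
noncomputable def CHM_q {n q : ℕ} [Fact q.Prime] {Λ : Type} [Group Λ] (s : Λ →* GL (Fin n) ℤ_[q]) :
    Λ →* Matrix (Fin n) (Fin n) ℚ_[q] :=
  ((RingHom.mapMatrix (PadicInt.Coe.ringHom (p := q))).toMonoidHom.comp
    (Units.coeHom (Matrix (Fin n) (Fin n) ℤ_[q]))).comp s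

theorem CHM_q_apply {n q : ℕ} [Fact q.Prime] {Λ : Type} [Group Λ] (s : Λ →* GL (Fin n) ℤ_[q])
    (l : Λ) : CHM_q s l = qM (s l) := rfl

/-- the dual homomorphism -/
noncomputable def CHM_d {n q : ℕ} [Fact q.Prime] {Λ : Type} [Group Λ] (s : Λ →* GL (Fin n) ℤ_[q]) :
    Λ →* GL (Fin n) ℤ_[q] :=
  MonoidHom.toHomUnits
    { toFun := fun l => (s l⁻¹ : Matrix (Fin n) (Fin n) ℤ_[q])ᵀ
      map_one' := by simp
      map_mul' := fun l m => by
        rw [_root_.mul_inv_rev, map_mul, Units.val_mul, Matrix.transpose_mul] }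

theorem CHM_d_apply {n q : ℕ} [Fact q.Prime] {Λ : Type} [Group Λ] (s : Λ →* GL (Fin n) ℤ_[q])
    (l : Λ) : (CHM_d s l : Matrix (Fin n) (Fin n) ℤ_[q]) =
      (s l⁻¹ : Matrix (Fin n) (Fin n) ℤ_[q])ᵀ := rfl

theorem CHM_tr {n q : ℕ} [Fact q.Prime] (A : GL (Fin n) ℤ_[q]) :
    (qM A).trace = (((A : Matrix (Fin n) (Fin n) ℤ_[q]).trace : ℤ_[q]) : ℚ_[q]) := by
  simp [qM, Matrix.trace]

theorem CHM (hT : TRACE_stmt) (hSPAN : LSPAN_stmt) (hKEY : LKEY_stmt) : CHM_stmt := by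
  classical
  intro n hn Λ _ hFG hQ f hf p q
  obtain ⟨t, h1, h2⟩ := hT n hn Λ hFG hQ (p : ℕ) (q : ℕ) (f p) (f q) (hf p) (hf q)
  have main : ∀ s : Λ →* GL (Fin n) ℤ_[(q : ℕ)],
      (∀ l, (((s l : Matrix (Fin n) (Fin n) ℤ_[(q : ℕ)]).trace : ℤ_[(q : ℕ)]) : ℚ_[(q : ℕ)]) =
        (t l : ℚ_[(q : ℕ)])) →
      Submodule.span ℚ_[(q : ℕ)] (Set.range (CHM_q s)) = ⊤ →
      (∀ A : Matrix (Fin n) (Fin n) ℤ_[(q : ℕ)], A.det = 1 → ∀ m : ℕ, m ≠ 0 → ∃ l : Λ,
        MC m (s l : Matrix (Fin n) (Fin n) ℤ_[(q : ℕ)]) A) →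
      ∃ (s : Λ →* GL (Fin n) ℤ_[(q : ℕ)]) (ψ : AL f p →ₐ[ℚ] Matrix (Fin n) (Fin n) ℚ_[(q : ℕ)]),
        (∀ l, ψ (al f p l) = qM (s l)) ∧
        (∀ x : AL f p, ∃ t : ℚ, (x : Matrix (Fin n) (Fin n) ℚ_[(p : ℕ)]).trace = (t : ℚ_[(p : ℕ)]) ∧
          (ψ x).trace = (t : ℚ_[(q : ℕ)])) ∧
        ∀ A : Matrix (Fin n) (Fin n) ℤ_[(q : ℕ)], A.det = 1 → ∀ m : ℕ, m ≠ 0 → ∃ l : Λ,
          MC m (s l : Matrix (Fin n) (Fin n) ℤ_[(q : ℕ)]) A := by
    intro s hs hsp hd
    obtain ⟨ψ, h3, h4⟩ := CHM_hom (CHM_q (f p)) (CHM_q s) t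
      (fun l => by rw [CHM_q_apply, CHM_tr]; exact h1 l)
      (fun l => by rw [CHM_q_apply, CHM_tr]; exact hs l) hsp
    exact ⟨s, ψ, h3, h4, hd⟩
  have hdens : ∀ A : Matrix (Fin n) (Fin n) ℤ_[(q : ℕ)], A.det = 1 → ∀ m : ℕ, m ≠ 0 → ∃ l : Λ,
      MC m (f q l : Matrix (Fin n) (Fin n) ℤ_[(q : ℕ)]) A := by
    intro A hA m hm
    obtain ⟨l, hl⟩ := hKEY n hn Λ hQ f hf
      (Function.update (fun q' : Nat.Primes => (1 : Matrix (Fin n) (Fin n) ℤ_[(q' : ℕ)])) q A)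
      (by
        intro q'
        by_cases h : q' = q
        · subst h
          rw [Function.update_self]; exact hA
        · rw [Function.update_of_ne h, Matrix.det_one]) m hm
    refine ⟨l, ?_⟩
    have := hl q
    rwa [Function.update_self] at this
  have hspan := hSPAN n hn Λ hQ f hf q
  rcases h2 with h2 | h2
  · exact main (f q) h2 hspan hdens
  · refine main (CHM_d (f q)) ?_ ?_ ?_
    · intro l
      rw [CHM_d_apply, Matrix.trace_transpose, h2, inv_inv]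
    · rw [eq_top_iff]
      intro B _
      have h5 : ∀ C ∈ Submodule.span ℚ_[(q : ℕ)] (Set.range fun l => qM (f q l)),
          Cᵀ ∈ Submodule.span ℚ_[(q : ℕ)] (Set.range (CHM_q (CHM_d (f q)))) := by
        intro C hC
        induction hC using Submodule.span_induction with
        | mem x hx =>
          obtain ⟨l, rfl⟩ := hx
          refine Submodule.subset_span ⟨l⁻¹, ?_⟩
          rw [CHM_q_apply, qM, CHM_d_apply, inv_inv]
          rfl
        | zero => rw [Matrix.transpose_zero]; exact Submodule.zero_mem _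
        | add x y _ _ hx hy => rw [Matrix.transpose_add]; exact Submodule.add_mem _ hx hy
        | smul c x _ hx => rw [Matrix.transpose_smul]; exact Submodule.smul_mem _ _ hx
      have h6 := h5 Bᵀ (by rw [hspan]; exact Submodule.mem_top)
      rwa [Matrix.transpose_transpose] at h6
    · intro A hA m hm
      obtain ⟨l, hl⟩ := hdens Aᵀ (by rw [Matrix.det_transpose]; exact hA) m hm
      refine ⟨l⁻¹, fun i j => ?_⟩
      rw [CHM_d_apply, inv_inv]
      exact hl j i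

end Pool.Agent.SHL
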