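import Pool.Agent.helper73.SHL.Spec

set_option autoImplicit false

namespace Pool.Agent.SHL

open Matrix Module

section

variable {G : Type} [Group G] {W : Type} [AddCommGroup W] [Module ℚ W] {K : Subgroup G} {f : G → W}

theorem HD_one (h : ∀ x ∈ K, ∀ y ∈ K, f (x * y) = f x + f y) : f 1 = 0 := by
  have := h 1 K.one_mem 1 K.one_mem
  rw [mul_one] at this
  simpa using this

theorem HD_inv (h : ∀ x ∈ K, ∀ y ∈ K, f (x * y) = f x + f y) {x : G} (hx : x ∈ K) :
    f x⁻¹ = - f x := by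
  have := h x hx x⁻¹ (K.inv_mem hx)
  rw [mul_inv_cancel, HD_one h] at this
  exact eq_neg_of_add_eq_zero_right this.symm

theorem HD_pow (h : ∀ x ∈ K, ∀ y ∈ K, f (x * y) = f x + f y) {x : G} (hx : x ∈ K) (n : ℕ) :
    f (x ^ n) = n • f x := by
  induction n with
  | zero => rw [pow_zero, zero_smul, HD_one h]
  | succ n ih => rw [pow_succ, h _ (K.pow_mem hx n) _ hx, ih, succ_nsmul]

theorem HD_zpow (h : ∀ x ∈ K, ∀ y ∈ K, f (x * y) = f x + f y) {x : G} (hx : x ∈ K) (n : ℤ) :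
    f (x ^ n) = n • f x := by
  cases n with
  | ofNat n =>
    rw [Int.ofNat_eq_natCast, zpow_natCast, natCast_zsmul]
    exact HD_pow h hx n
  | negSucc n =>
    rw [zpow_negSucc, negSucc_zsmul, HD_inv h (K.pow_mem hx _), HD_pow h hx]

theorem HD_span (h : ∀ x ∈ K, ∀ y ∈ K, f (x * y) = f x + f y) {w : W}
    (hw : w ∈ Submodule.span ℚ (f '' (K : Set G))) :
    ∃ j : ℕ, 0 < j ∧ ∃ k ∈ K, (j : ℚ) • w = f k := by
  induction hw using Submodule.span_induction with
  | mem x hx =>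
    obtain ⟨k, hk, rfl⟩ := hx
    exact ⟨1, one_pos, k, hk, by simp⟩
  | zero => exact ⟨1, one_pos, 1, K.one_mem, by rw [HD_one h]; simp⟩
  | add x y _ _ hx hy =>
    obtain ⟨j₁, h1, k₁, hk1, e1⟩ := hx
    obtain ⟨j₂, h2, k₂, hk2, e2⟩ := hy
    refine ⟨j₁ * j₂, Nat.mul_pos h1 h2, k₁ ^ j₂ * k₂ ^ j₁,
      K.mul_mem (K.pow_mem hk1 _) (K.pow_mem hk2 _), ?_⟩
    rw [h _ (K.pow_mem hk1 _) _ (K.pow_mem hk2 _), HD_pow h hk1, HD_pow h hk2, ← e1, ← e2,
      smul_add, ← Nat.cast_smul_eq_nsmul ℚ, ← Nat.cast_smul_eq_nsmul ℚ, smul_smul, smul_smul]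
    push_cast
    rw [mul_comm (j₂ : ℚ) (j₁ : ℚ)]
  | smul q x _ hx =>
    obtain ⟨j, hj, k, hk, e⟩ := hx
    refine ⟨q.den * j, Nat.mul_pos q.den_pos hj, k ^ q.num, K.zpow_mem hk _, ?_⟩
    rw [HD_zpow h hk, ← e, ← Int.cast_smul_eq_zsmul ℚ, smul_smul, smul_smul]
    push_cast
    congr 1
    have : (q.den : ℚ) * q = q.num := by
      rw [mul_comm]
      exact Rat.mul_den_eq_num q
    rw [← this]
    ring

end

theorem HD : HD_stmt := by
  intro G _ W _ _ _ H f hf hker N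
  have main : ∀ (N : ℕ) (H' : Subgroup G), H' ≤ H → Hi N H' →
      N ≤ finrank ℚ (Submodule.span ℚ (f '' (H' : Set G))) := by
    intro N
    induction N with
    | zero => intro _ _ _; exact Nat.zero_le _
    | succ N ih =>
      rintro H' hH' ⟨K, L, hKL, hLH, hconj, ⟨g, hgL, hg⟩, hK⟩
      have hKH : K ≤ H := hKL.trans (hLH.trans hH')
      have hfK : ∀ x ∈ K, ∀ y ∈ K, f (x * y) = f x + f y := fun x hx y hy =>
        hf x (hKH hx) y (hKH hy)
      have hgH : g ∈ H := hH' (hLH hgL)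
      have h1 := ih K hKH hK
      have hnot : f g ∉ Submodule.span ℚ (f '' (K : Set G)) := by
        intro hmem
        obtain ⟨j, hj, k, hk, e⟩ := HD_span hfK hmem
        have e2 : f (g ^ j * k⁻¹) = 0 := by
          rw [hf _ (H.pow_mem hgH j) _ (H.inv_mem (hKH hk)), HD_pow hf hgH, HD_inv hf (hKH hk),
            ← e, Nat.cast_smul_eq_nsmul, add_neg_cancel]
        obtain ⟨i, hi, hi2⟩ := hker _ (H.mul_mem (H.pow_mem hgH j) (H.inv_mem (hKH hk))) e2
        have hmi : ∀ i : ℕ, (g ^ (j * i))⁻¹ * (g ^ j * k⁻¹) ^ i ∈ K := by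
          intro i
          induction i with
          | zero => simp [K.one_mem]
          | succ i ih =>
            have h2 : (g ^ (j * (i + 1)))⁻¹ * (g ^ j * k⁻¹) ^ (i + 1) =
                ((g ^ j)⁻¹ * ((g ^ (j * i))⁻¹ * (g ^ j * k⁻¹) ^ i) * ((g ^ j)⁻¹)⁻¹) * k⁻¹ := by
              rw [Nat.mul_succ, pow_add, pow_succ (g ^ j * k⁻¹), inv_inv]
              group
            rw [h2]
            exact K.mul_mem (hconj _ (L.inv_mem (L.pow_mem hgL j)) _ ih) (K.inv_mem hk)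
        have h3 := hmi i
        rw [hi2, mul_one] at h3
        exact hg (j * i) (Nat.mul_pos hj hi) ((K.inv_mem_iff).mp h3)
      have hle : Submodule.span ℚ (f '' (K : Set G)) ≤ Submodule.span ℚ (f '' (H' : Set G)) :=
        Submodule.span_mono (Set.image_mono (hKL.trans hLH))
      have hlt : Submodule.span ℚ (f '' (K : Set G)) < Submodule.span ℚ (f '' (H' : Set G)) := by
        refine lt_of_le_of_ne hle fun heq => hnot ?_
        rw [heq]
        exact Submodule.subset_span ⟨g, hLH hgL, rfl⟩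
      have := Submodule.finrank_lt_finrank_of_lt hlt
      omega
  exact main N H le_rfl

end Pool.Agent.SHL
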