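import Pool.Agent.helper73.SHL.Spec

set_option autoImplicit false
namespace Pool.Agent.SHL
open Matrix Module

theorem LIN_rat {D : Type} [DivisionRing D] [Algebra ℚ D] {F : Type} [Field F] [CharZero F]
    {R : Type} [Ring R] [Algebra F R] (φ : D →+* R) (q : ℚ) :
    φ (algebraMap ℚ D q) = algebraMap F R (algebraMap ℚ F q) := by
  have h := RingHom.ext_rat (φ.comp (algebraMap ℚ D)) ((algebraMap F R).comp (algebraMap ℚ F))
  exact RingHom.congr_fun h q

theorem LIN_smul {D : Type} [DivisionRing D] [Algebra ℚ D] {F : Type} [Field F] [CharZero F]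
    {R : Type} [Ring R] [Algebra F R] (φ : D →+* R) (q : ℚ) (v : D) :
    φ (q • v) = (algebraMap ℚ F q) • φ v := by
  rw [Algebra.smul_def, map_mul, LIN_rat (F := F) φ q, Algebra.smul_def]

theorem LIN_key {D : Type} [DivisionRing D] [Algebra ℚ D] (hD : Algebra.IsCentral ℚ D)
    {F : Type} [Field F] [CharZero F] {R : Type} [Ring R] [Nontrivial R] [Algebra F R]
    (φ : D →+* R) {κ : Type} (c : κ → F) (hc : LinearIndependent ℚ c) :
    ∀ (n : ℕ) (s : Finset κ), s.card = n → ∀ a : κ → D, ∑ i ∈ s, c i • φ (a i) = 0 →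
      ∀ i ∈ s, a i = 0 := by
  classical
  intro n
  induction n with
  | zero =>
    intro s hs a _ i hi
    rw [Finset.card_eq_zero.mp hs] at hi
    simp at hi
  | succ n ih =>
    intro s hs a hsum j hj
    by_contra haj
    -- normalise
    let b : κ → D := fun i => a i * (a j)⁻¹
    have hbj : b j = 1 := mul_inv_cancel₀ haj
    have hb : ∑ i ∈ s, c i • φ (b i) = 0 := by
      have h1 : ∑ i ∈ s, c i • φ (b i) = (∑ i ∈ s, c i • φ (a i)) * φ ((a j)⁻¹) := by
        rw [Finset.sum_mul]
        refine Finset.sum_congr rfl fun i _ => ?_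
        rw [smul_mul_assoc, ← map_mul]
      rw [h1, hsum, zero_mul]
    have hcard : (s.erase j).card = n := by
      rw [Finset.card_erase_of_mem hj, hs]; rfl
    have hcomm : ∀ x : D, x ≠ 0 → ∀ i ∈ s, x * b i = b i * x := by
      intro x hx i hi
      have h2 : ∑ i ∈ s, c i • φ (x * b i * x⁻¹ - b i) = 0 := by
        have h3 : ∑ i ∈ s, c i • φ (x * b i * x⁻¹ - b i) =
            φ x * (∑ i ∈ s, c i • φ (b i)) * φ x⁻¹ - ∑ i ∈ s, c i • φ (b i) := by
          rw [Finset.mul_sum, Finset.sum_mul, ← Finset.sum_sub_distrib]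
          refine Finset.sum_congr rfl fun i _ => ?_
          rw [map_sub, smul_sub, map_mul, map_mul, mul_smul_comm, smul_mul_assoc]
        rw [h3, hb, mul_zero, zero_mul, sub_zero]
      have h4 : ∑ i ∈ s.erase j, c i • φ (x * b i * x⁻¹ - b i) = 0 := by
        rw [← Finset.add_sum_erase s _ hj] at h2
        rw [hbj] at h2
        simpa [mul_inv_cancel₀ hx] using h2
      by_cases hij : i = j
      · subst hij
        rw [hbj, mul_one, one_mul]
      · have h5 := ih (s.erase j) hcard (fun i => x * b i * x⁻¹ - b i) h4 i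
          (Finset.mem_erase.mpr ⟨hij, hi⟩)
        have h6 : x * b i * x⁻¹ = b i := sub_eq_zero.mp h5
        calc x * b i = x * b i * x⁻¹ * x := by rw [inv_mul_cancel_right₀ hx]
          _ = b i * x := by rw [h6]
    have hcen : ∀ i ∈ s, ∃ q : ℚ, algebraMap ℚ D q = b i := by
      intro i hi
      have h7 : b i ∈ Subalgebra.center ℚ D := by
        rw [Subalgebra.mem_center_iff]
        intro x
        by_cases hx : x = 0
        · rw [hx, zero_mul, mul_zero]
        · exact hcomm x hx i hi
      have h8 := hD.out h7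
      exact h8
    choose! q hq using hcen
    have hq1 : q j = 1 := by
      have := hq j hj
      rw [hbj] at this
      exact (algebraMap ℚ D).injective (by rw [this, map_one])
    have h9 : algebraMap F R (∑ i ∈ s, q i • c i) = 0 := by
      rw [map_sum, ← hb]
      refine Finset.sum_congr rfl fun i hi => ?_
      rw [← hq i hi, LIN_rat (F := F) φ, Algebra.smul_def (q i) (c i), map_mul,
        Algebra.smul_def (c i), Algebra.commutes]
    have h10 : ∑ i ∈ s, q i • c i = 0 :=
      (FaithfulSMul.algebraMap_injective F R) (by rw [h9, map_zero])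
    have h11 := linearIndependent_iff'.mp hc s q h10 j hj
    rw [hq1] at h11
    exact one_ne_zero h11

theorem LIN : LIN_stmt := by
  classical
  intro D _ _ hD F _ _ R _ _ _ φ ι v hv
  rw [linearIndependent_iff']
  intro t g hg
  let β := Basis.ofVectorSpace ℚ F
  let s : Finset (Basis.ofVectorSpaceIndex ℚ F) := t.biUnion fun i => (β.repr (g i)).support
  have hexp : ∀ i ∈ t, g i = ∑ k ∈ s, (β.repr (g i) k) • β k := by
    intro i hi
    have h1 := β.linearCombination_repr (g i)
    rw [Finsupp.linearCombination_apply, Finsupp.sum] at h1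
    rw [← h1]
    have h2 : ∑ k ∈ s, (β.repr (g i) k) • β k = ∑ k ∈ (β.repr (g i)).support, (β.repr (g i) k) • β k := by
      symm
      refine Finset.sum_subset (Finset.subset_biUnion_of_mem (fun i => (β.repr (g i)).support) hi) ?_
      intro k _ hk
      rw [Finsupp.notMem_support_iff.mp hk, zero_smul]
    rw [h1, h2, h1]
  have hsum : ∑ k ∈ s, β k • φ (∑ i ∈ t, (β.repr (g i) k) • v i) = 0 := by
    rw [← hg]
    have h3 : ∀ i ∈ t, g i • φ (v i) = ∑ k ∈ s, β k • φ ((β.repr (g i) k) • v i) := by
      intro i hi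
      conv_lhs => rw [hexp i hi]
      rw [Finset.sum_smul]
      refine Finset.sum_congr rfl fun k _ => ?_
      rw [LIN_smul (F := F) φ, smul_smul, Algebra.smul_def ((β.repr (g i)) k) (β k), mul_comm]
    rw [Finset.sum_congr rfl h3, Finset.sum_comm]
    refine Finset.sum_congr rfl fun k _ => ?_
    rw [map_sum, Finset.smul_sum]
  have hkey := LIN_key hD φ β β.linearIndependent s.card s rfl _ hsum
  intro i hi
  rw [hexp i hi]
  refine Finset.sum_eq_zero fun k hk => ?_
  have := linearIndependent_iff'.mp hv t _ (hkey k hk) i hi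
  rw [this, zero_smul]

end Pool.Agent.SHL
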