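import Pool.Agent.helper73.SHL.Spec

set_option autoImplicit false

namespace Pool.Agent.SHL

open Matrix Module Pool.Agent.PR

theorem NOB_int {F : Type} [Field F] (a : ℤ) (w : Fin 2 → F) :
    ((a : Matrix (Fin 2) (Fin 2) F)) *ᵥ w = (a : F) • w := by
  have : (a : Matrix (Fin 2) (Fin 2) F) = (a : F) • (1 : Matrix (Fin 2) (Fin 2) F) := by
    rw [← map_intCast (algebraMap F (Matrix (Fin 2) (Fin 2) F)) a, Algebra.algebraMap_eq_smul_one]
  rw [this, Matrix.smul_mulVec, Matrix.one_mulVec]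

theorem NOB_conic {F : Type} [Field F] {D : Type} [Ring D] (φ : D →+* Matrix (Fin 2) (Fin 2) F)
    (i j : D) (a b : ℤ) (hi : i * i = a) (hj : j * j = b) (hij : i * j = -(j * i)) :
    ∃ x y z : F, (x ≠ 0 ∨ y ≠ 0 ∨ z ≠ 0) ∧ z ^ 2 = a * x ^ 2 + b * y ^ 2 := by
  let I := φ i
  let J := φ j
  have hI : I * I = (a : Matrix (Fin 2) (Fin 2) F) := by
    rw [← map_mul, hi, map_intCast]
  have hJ : J * J = (b : Matrix (Fin 2) (Fin 2) F) := by
    rw [← map_mul, hj, map_intCast]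
  have hIJ : I * J = -(J * I) := by
    rw [← map_mul, hij, map_neg, map_mul]
  let w : Fin 2 → F := Pi.single 0 1
  let L : (Fin 3 → F) →ₗ[F] (Fin 2 → F) :=
    { toFun := fun v => v 2 • w + v 0 • (I *ᵥ w) + v 1 • (J *ᵥ w)
      map_add' := fun v v' => by
        simp only [Pi.add_apply, add_smul]
        abel
      map_smul' := fun c v => by
        simp only [Pi.smul_apply, smul_eq_mul, RingHom.id_apply, smul_add, smul_smul] }
  have hker : LinearMap.ker L ≠ ⊥ := by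
    apply LinearMap.ker_ne_bot_of_finrank_lt
    simp
  obtain ⟨v, hv, hv0⟩ := Submodule.exists_mem_ne_zero_of_ne_bot hker
  have hL : v 2 • w + v 0 • (I *ᵥ w) + v 1 • (J *ᵥ w) = 0 := hv
  refine ⟨v 0, v 1, v 2, ?_, ?_⟩
  · by_contra hcon
    push Not at hcon
    apply hv0
    funext m
    fin_cases m
    · exact hcon.1
    · exact hcon.2.1
    · exact hcon.2.2
  · have hII : I *ᵥ (I *ᵥ w) = (a : F) • w := by
      rw [Matrix.mulVec_mulVec, hI, NOB_int]
    have hJJ : J *ᵥ (J *ᵥ w) = (b : F) • w := by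
      rw [Matrix.mulVec_mulVec, hJ, NOB_int]
    have hIJw : I *ᵥ (J *ᵥ w) = - (J *ᵥ (I *ᵥ w)) := by
      rw [Matrix.mulVec_mulVec, Matrix.mulVec_mulVec, hIJ, Matrix.neg_mulVec]
    have e1 : I *ᵥ (v 2 • w + v 0 • (I *ᵥ w) + v 1 • (J *ᵥ w)) = 0 := by
      rw [hL, Matrix.mulVec_zero]
    have e2 : J *ᵥ (v 2 • w + v 0 • (I *ᵥ w) + v 1 • (J *ᵥ w)) = 0 := by
      rw [hL, Matrix.mulVec_zero]
    rw [Matrix.mulVec_add, Matrix.mulVec_add, Matrix.mulVec_smul, Matrix.mulVec_smul,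
      Matrix.mulVec_smul, hII, hIJw] at e1
    rw [Matrix.mulVec_add, Matrix.mulVec_add, Matrix.mulVec_smul, Matrix.mulVec_smul,
      Matrix.mulVec_smul, hJJ] at e2
    have f0 := congrFun hL 0
    have f1 := congrFun e1 0
    have f2 := congrFun e2 0
    have hw : w 0 = 1 := by simp [w]
    simp only [Pi.add_apply, Pi.smul_apply, smul_eq_mul, Pi.zero_apply, Pi.neg_apply, hw] at f0 f1 f2
    linear_combination (v 2) * f0 - (v 0) * f1 - (v 1) * f2

theorem NOB (hCHM : CHM_stmt) (hCON : CON_stmt) (hQUA : QUA_stmt) (hBLK : BLK_stmt) :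
    NOB_stmt := by
  intro n hn Λ _ hFG hQ f hf p k D _ _ _ hcen hdim hnk
  subst hnk
  rintro ⟨e⟩
  have hk : 0 < k := by omega
  obtain ⟨i, j, a, b, ha, hb, hi, hj, hij, hno⟩ := hQUA D hcen hdim
  obtain ⟨x, y, z, hne, heq⟩ := hCON a b ha hb (fun q hq => by
    obtain ⟨s, ψ, -, -, -⟩ := hCHM (2 * k) hn Λ hFG hQ f hf p ⟨q, hq.out⟩
    have Ψ : Matrix (Fin k) (Fin k) D →+* Matrix (Fin (2 * k)) (Fin (2 * k)) ℚ_[q] :=
      (ψ : AL f p →+* _).comp (e.symm : Matrix (Fin k) (Fin k) D →+* AL f p)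
    obtain ⟨φ, -⟩ := hBLK ℚ_[q] D 2 k hk Ψ
    exact NOB_conic φ i j a b hi hj hij)
  obtain ⟨h1, h2, h3⟩ := hno x y z heq
  rcases hne with h | h | h
  · exact h h1
  · exact h h2
  · exact h h3

end Pool.Agent.SHL
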