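import Pool.Agent.helper73.SHL.Spec

set_option autoImplicit false

namespace Pool.Agent.SHL

open Matrix Module

theorem TRC_toMatrix {F E ι : Type} [Fintype ι] [DecidableEq ι] [Field F] [AddCommGroup E]
    [Module F E] (b : Basis ι F E) (f : E →ₗ[F] E) (M : Matrix ι ι F)
    (h : ∀ j, f (b j) = ∑ i, M i j • b i) : LinearMap.toMatrix b b f = M := by
  have h1 : Matrix.toLin b b M = f := b.ext fun j => by rw [Matrix.toLin_self, h]
  rw [← h1, LinearMap.toMatrix_toLin]

theorem TRC_std {F : Type} [Field F] {d : ℕ} (A : Matrix (Fin d) (Fin d) F) :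
    LinearMap.toMatrix (Matrix.stdBasis F (Fin d) (Fin d)) (Matrix.stdBasis F (Fin d) (Fin d))
      (LinearMap.mulLeft F A) = Matrix.kroneckerMap (· * ·) A (1 : Matrix (Fin d) (Fin d) F) := by
  refine TRC_toMatrix _ _ _ ?_
  rintro ⟨k, l⟩
  rw [LinearMap.mulLeft_apply, Fintype.sum_prod_type]
  simp only [Matrix.stdBasis_eq_single, Matrix.kroneckerMap_apply, Matrix.one_apply]
  ext p q
  simp only [Matrix.sum_apply, Matrix.smul_apply, Matrix.single_apply, Matrix.mul_apply]
  simp [ite_and, eq_comm]

theorem TRC (hLIN : LIN_stmt) : TRC_stmt := by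
  classical
  intro D _ _ _ d hD hdim F _ _ φ x
  have hrat : ∀ q : ℚ, ∀ y : D, φ (q • y) = (q : F) • φ y := by
    intro q y
    have h := RingHom.ext_rat (φ.comp (algebraMap ℚ D))
      ((algebraMap F (Matrix (Fin d) (Fin d) F)).comp (algebraMap ℚ F))
    have h2 := RingHom.congr_fun h q
    simp only [RingHom.comp_apply, eq_ratCast] at h2
    rw [Algebra.smul_def, map_mul, Algebra.smul_def, eq_ratCast]
    rw [h2]
  let b : Basis (Fin (finrank ℚ D)) ℚ D := finBasis ℚ D
  have hd : 0 < d := by
    rcases Nat.eq_zero_or_pos d with h0 | h0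
    · have : 0 < finrank ℚ D := finrank_pos
      rw [hdim, h0] at this
      simp at this
    · exact h0
  have : Nonempty (Fin d) := ⟨⟨0, hd⟩⟩
  have hli := hLIN D hD F (Matrix (Fin d) (Fin d) F) φ _ b b.linearIndependent
  have hcard : Fintype.card (Fin (finrank ℚ D)) = finrank F (Matrix (Fin d) (Fin d) F) := by
    rw [Fintype.card_fin, hdim, Module.finrank_matrix]
    simp
  have : Nonempty (Fin (finrank ℚ D)) := ⟨⟨0, finrank_pos⟩⟩
  let b' := basisOfLinearIndependentOfCardEqFinrank hli hcard
  have hb' : ∀ i, b' i = φ (b i) := fun i => by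
    simp [b', coe_basisOfLinearIndependentOfCardEqFinrank]
  let M := LinearMap.toMatrix b b (LinearMap.mulLeft ℚ x)
  have hM : ∀ j, x * b j = ∑ i, M i j • b i := by
    intro j
    have h1 := Matrix.toLin_self b b M j
    have h2 : Matrix.toLin b b M = LinearMap.mulLeft ℚ x := Matrix.toLin_toMatrix b b _
    rw [h2, LinearMap.mulLeft_apply] at h1
    exact h1
  have hM' : LinearMap.toMatrix b' b' (LinearMap.mulLeft F (φ x)) = M.map (fun q : ℚ => (q : F)) := by
    refine TRC_toMatrix _ _ _ ?_
    intro j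
    rw [LinearMap.mulLeft_apply, hb', ← map_mul, hM, map_sum]
    refine Finset.sum_congr rfl fun i _ => ?_
    rw [hrat, hb', Matrix.map_apply]
  have hmap : M.map (fun q : ℚ => (q : F)) = (Rat.castHom F).mapMatrix M := by
    ext i j; simp
  constructor
  · have h1 : LinearMap.trace F _ (LinearMap.mulLeft F (φ x)) = (tra x : F) := by
      rw [LinearMap.trace_eq_matrix_trace F b', hM', tra, LinearMap.trace_eq_matrix_trace ℚ b]
      simp [Matrix.trace, M]
    have h2 : LinearMap.trace F _ (LinearMap.mulLeft F (φ x)) = (φ x).trace * d := by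
      rw [LinearMap.trace_eq_matrix_trace F (Matrix.stdBasis F (Fin d) (Fin d)), TRC_std]
      rw [Matrix.trace_kronecker, Matrix.trace_one, Fintype.card_fin]
    rw [← h1, h2, mul_comm]
  · have h1 : LinearMap.det (LinearMap.mulLeft F (φ x)) = (nor x : F) := by
      rw [← LinearMap.det_toMatrix b', hM', hmap, ← RingHom.map_det, nor,
        ← LinearMap.det_toMatrix b]
      rfl
    have h2 : LinearMap.det (LinearMap.mulLeft F (φ x)) = (φ x).det ^ d := by
      rw [← LinearMap.det_toMatrix (Matrix.stdBasis F (Fin d) (Fin d)), TRC_std]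
      rw [Matrix.det_kronecker, Matrix.det_one, one_pow, mul_one, Fintype.card_fin]
    rw [← h1, h2]

end Pool.Agent.SHL
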